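import Mathlib
import Pool.Agent.Y1.KN.Stm4

/-!
# Subfields of CM fields (job KN-CMSUB)
-/

set_option linter.unusedSectionVars false
set_option linter.unusedVariables false

namespace Pool.Agent.Y46.KN1

open Finset Module NumberField Pool.Agent.TH170.MF Pool.Agent.H204R3.CM Pool.Agent.Y1.KN

section

variable {E : Type*} [Field E] [NumberField E]

/-- Elements on which embeddings agree as soon as they agree on the subfield. -/
theorem mem_of_agree (F : IntermediateField ℚ E) (y : E)
    (h : ∀ φ ψ : E →+* ℂ, (∀ x ∈ F, φ x = ψ x) → φ y = ψ y) : y ∈ F := by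
  classical
  obtain ⟨φ₀⟩ : Nonempty (E →+* ℂ) := inferInstance
  letI : Algebra F ℂ := (φ₀.comp (algebraMap F E)).toAlgebra
  have h1 : (Set.range fun ψ : E →ₐ[F] ℂ => ψ y) = (minpoly F y).rootSet ℂ :=
    Algebra.IsAlgebraic.range_eval_eq_rootSet_minpoly ℂ y
  have hsep : (minpoly F y).Separable := Algebra.IsSeparable.isSeparable F y
  have hint : IsIntegral F y := Algebra.IsIntegral.isIntegral y
  have hsub : ∀ a b : (minpoly F y).rootSet ℂ, a = b := by
    rintro ⟨a, ha⟩ ⟨b, hb⟩
    rw [← h1] at ha hb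
    obtain ⟨φ, rfl⟩ := ha
    obtain ⟨ψ, rfl⟩ := hb
    apply Subtype.ext
    refine h (φ : E →+* ℂ) (ψ : E →+* ℂ) fun x hx => ?_
    exact (φ.commutes ⟨x, hx⟩).trans (ψ.commutes ⟨x, hx⟩).symm
  have hcard := Polynomial.card_rootSet_eq_natDegree (K := ℂ) hsep (IsAlgClosed.splits _)
  have hle : Fintype.card ((minpoly F y).rootSet ℂ) ≤ 1 :=
    Fintype.card_le_one_iff.2 hsub
  have hpos := minpoly.natDegree_pos hint
  obtain ⟨x, hx⟩ := minpoly.natDegree_eq_one_iff.1 (show (minpoly F y).natDegree = 1 by omega)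
  rw [← hx]
  exact x.2

/-- Every embedding of a subfield extends. -/
theorem exists_ext' {L K : Type*} [Field L] [Field K] [Algebra L K] [Algebra.IsAlgebraic L K]
    (ψ : L →+* ℂ) : ∃ φ : K →+* ℂ, φ.comp (algebraMap L K) = ψ := by
  letI : Algebra L ℂ := ψ.toAlgebra
  let f : K →ₐ[L] ℂ := IsAlgClosed.lift
  exact ⟨f, f.comp_algebraMap⟩

end

theorem cm : P_cm := by
  classical
  intro E _ _ _ F hψ
  have hmem : ∀ x ∈ F, IsCMField.complexConj E x ∈ F := by
    intro x hx
    refine mem_of_agree F _ fun φ ψ h => ?_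
    rw [IsCMField.complexEmbedding_complexConj, IsCMField.complexEmbedding_complexConj, h x hx]
  let e : F ≃+* F :=
    { toFun := fun x => ⟨IsCMField.complexConj E x, hmem x x.2⟩
      invFun := fun x => ⟨IsCMField.complexConj E x, hmem x x.2⟩
      left_inv := fun x => Subtype.ext (IsCMField.complexConj_apply_apply E (x : E))
      right_inv := fun x => Subtype.ext (IsCMField.complexConj_apply_apply E (x : E))
      map_mul' := fun x y => Subtype.ext (map_mul (IsCMField.complexConj E) (x : E) y)
      map_add' := fun x y => Subtype.ext (map_add (IsCMField.complexConj E) (x : E) y) }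
  let c : F ≃ₐ[ℚ] F := AlgEquiv.ofRingEquiv (f := e) fun r => by
    rw [eq_ratCast, map_ratCast]
  have hcE : ∀ x : F, ((c x : F) : E) = IsCMField.complexConj E x := fun x => rfl
  have hconj : ∀ (ψ : F →+* ℂ) (x : F), ψ (c x) = ComplexEmbedding.conjugate ψ x := by
    intro ψ x
    obtain ⟨φ, rfl⟩ := exists_ext' (K := E) ψ
    rw [RingHom.comp_apply, ComplexEmbedding.conjugate_coe_eq, RingHom.comp_apply]
    exact IsCMField.complexEmbedding_complexConj E φ (x : E)
  have hne : c ≠ 1 := by
    intro h1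
    obtain ⟨ψ, hψ⟩ := hψ
    apply hψ
    ext x
    rw [← hconj, h1]
    rfl
  have hnr : ∀ ψ : F →+* ℂ, ComplexEmbedding.conjugate ψ ≠ ψ := by
    intro ψ h
    apply hne
    ext x
    have h1 := hconj ψ x
    rw [h] at h1
    exact congrArg (fun y : F => (y : E)) (ψ.injective h1)
  have hTC : IsTotallyComplex F := ⟨fun v => by
    rw [InfinitePlace.isComplex_iff, ComplexEmbedding.isReal_iff]
    exact hnr _⟩
  have hcc : c ^ 2 = 1 := by
    ext x
    rw [pow_two]
    exact IsCMField.complexConj_apply_apply E (x : E)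
  have hord : orderOf c = 2 := orderOf_eq_prime hcc hne
  let L : IntermediateField ℚ F := IntermediateField.fixedField (Subgroup.zpowers c)
  have hfin : finrank L F = 2 := by
    rw [IntermediateField.finrank_fixedField_eq_card, Nat.card_zpowers, hord]
  have hL : ∀ x : L, c (x : F) = x := by
    intro x
    exact x.2 ⟨c, Subgroup.mem_zpowers c⟩
  have hTR : IsTotallyReal L := ⟨fun v => by
    rw [InfinitePlace.isReal_iff, ComplexEmbedding.isReal_iff]
    obtain ⟨ψ, hψ⟩ := exists_ext' (K := F) v.embedding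
    rw [← hψ]
    ext x
    have h1 := hconj ψ (algebraMap L F x)
    have h2 : c (algebraMap L F x) = algebraMap L F x := hL x
    rw [h2] at h1
    exact h1.symm⟩
  have hQ : Algebra.IsQuadraticExtension L F := ⟨hfin⟩
  exact IsCMField.ofCMExtension L F

theorem bij : P_bij := by
  classical
  intro E _ _ _ F _ g m hF hE
  have hpos : 0 < finrank ℚ E := Module.finrank_pos
  have hposF : 0 < finrank ℚ F := Module.finrank_pos
  have hm0 : m ≠ 0 := by
    rintro rfl
    rw [zero_mul, mul_zero] at hE
    omega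
  have : NeZero m := ⟨hm0⟩
  have hFE : finrank F E = m := by
    have h1 := Module.finrank_mul_finrank ℚ F E
    rw [hF, hE] at h1
    have h2 : 2 * g * finrank F E = 2 * g * m := by rw [h1]; ring
    exact Nat.eq_of_mul_eq_mul_left (by omega) h2
  -- injective maps on the fibres
  have hfib : ∀ ψ : F →+* ℂ, ∃ f : (E →+* ℂ) → ZMod m,
      ∀ φ φ' : E →+* ℂ, φ.comp (algebraMap F E) = ψ → φ'.comp (algebraMap F E) = ψ →
        f φ = f φ' → φ = φ' := by
    intro ψ
    letI : Algebra F ℂ := ψ.toAlgebra
    have hcard : Fintype.card (E →ₐ[F] ℂ) = Fintype.card (ZMod m) := by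
      rw [AlgHom.card F E ℂ, hFE, ZMod.card]
    let t := Fintype.equivOfCardEq hcard
    let mk : ∀ φ : E →+* ℂ, φ.comp (algebraMap F E) = ψ → (E →ₐ[F] ℂ) := fun φ hφ =>
      { φ with commutes' := fun x => RingHom.congr_fun hφ x }
    have hmk : ∀ φ hφ, ((mk φ hφ : E →ₐ[F] ℂ) : E →+* ℂ) = φ := fun φ hφ => rfl
    refine ⟨fun φ => if h : φ.comp (algebraMap F E) = ψ then t (mk φ h) else 0, ?_⟩
    intro φ φ' h h' hff
    simp only [dif_pos h, dif_pos h'] at hff
    have h1 := t.injective hff
    rw [← hmk φ h, ← hmk φ' h', h1]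
  choose f hf using hfib
  obtain ⟨T, hT⟩ := exists_transversal (X := F →+* ℂ) (c := ComplexEmbedding.conjugate (K := F))
    conj_conj conj_ne
  let res : (E →+* ℂ) → (F →+* ℂ) := fun φ => φ.comp (algebraMap F E)
  have hres : ∀ φ, res (ComplexEmbedding.conjugate φ) = ComplexEmbedding.conjugate (res φ) :=
    fun φ => rfl
  let κ : (E →+* ℂ) → ZMod m := fun φ =>
    if res φ ∈ T then f (res φ) φ
    else f (ComplexEmbedding.conjugate (res φ)) (ComplexEmbedding.conjugate φ)
  have hκ : ∀ φ, κ (ComplexEmbedding.conjugate φ) = κ φ := by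
    intro φ
    by_cases h : res φ ∈ T
    · have h1 : res (ComplexEmbedding.conjugate φ) ∉ T := by
        rw [hres]
        exact (hT _).1 h
      simp only [κ, if_neg h1, if_pos h]
      rw [hres, conj_conj, conj_conj]
    · have h1 : res (ComplexEmbedding.conjugate φ) ∈ T := by
        rw [hres]
        by_contra h2
        exact h ((hT _).2 h2)
      simp only [κ, if_pos h1, if_neg h]
      rw [hres]
  have hinj : Function.Injective fun φ : E →+* ℂ => (res φ, κ φ) := by
    intro φ φ' h
    have h1 : res φ = res φ' := congrArg Prod.fst h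
    have h2 : κ φ = κ φ' := congrArg Prod.snd h
    by_cases h3 : res φ ∈ T
    · have h4 : res φ' ∈ T := by rwa [← h1]
      simp only [κ, if_pos h3, if_pos h4] at h2
      rw [← h1] at h2
      exact hf _ φ φ' rfl h1.symm h2
    · have h4 : res φ' ∉ T := by rwa [← h1]
      simp only [κ, if_neg h3, if_neg h4] at h2
      rw [← h1] at h2
      have h5 := hf _ _ _ (hres φ) ((hres φ').trans (by rw [h1])) h2
      have h6 := congrArg ComplexEmbedding.conjugate h5
      rwa [conj_conj, conj_conj] at h6
  have hcardEq : Fintype.card (E →+* ℂ) = Fintype.card ((F →+* ℂ) × ZMod m) := by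
    rw [Fintype.card_prod, ZMod.card, Embeddings.card, Embeddings.card, hF, hE]
    ring
  have hbij := (Fintype.bijective_iff_injective_and_card _).2 ⟨hinj, hcardEq⟩
  refine ⟨Equiv.ofBijective _ hbij, fun φ => rfl, fun φ => ?_⟩
  show (res (ComplexEmbedding.conjugate φ), κ (ComplexEmbedding.conjugate φ)) = _
  rw [hκ, hres]
  rfl

end Pool.Agent.Y46.KN1
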