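import Mathlib
import Pool.Agent.Y1.KN.Stm4

/-!
# Minimal spaces that come from a subfield (job KN-DESC)
-/

set_option linter.unusedSectionVars false
set_option linter.unusedVariables false

namespace Pool.Agent.Y46.KN1

open Finset Module NumberField Pool.Agent.TH170.MF Pool.Agent.TH170.QC Pool.Agent.TH170.QE
  Pool.Agent.TH170.FW Pool.Agent.H204R3.CM Pool.Agent.Y1.KN

section

variable {E : Type*} [Field E] [NumberField E] (F : IntermediateField ℚ E)

/-- Every embedding of the subfield extends. -/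
theorem exists_ext (ψ : F →+* ℂ) : ∃ φ : E →+* ℂ, φ.comp (algebraMap F E) = ψ := by
  letI : Algebra F ℂ := ψ.toAlgebra
  let f : E →ₐ[F] ℂ := IsAlgClosed.lift
  exact ⟨f, f.comp_algebraMap⟩

theorem pull_apply (v : (F →+* ℂ) → ℚ) (φ : E →+* ℂ) :
    pull F v φ = v (φ.comp (algebraMap F E)) := rfl

theorem pull_inj : Function.Injective (pull F) := by
  intro v v' h
  funext ψ
  obtain ⟨φ, rfl⟩ := exists_ext F ψ
  exact congrFun h φ

theorem mem_range_pull {u : (E →+* ℂ) → ℚ} (hu : u ∈ resSpace F) :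
    u ∈ LinearMap.range (pull F) := by
  choose e he using exists_ext F
  refine ⟨fun ψ => u (e ψ), ?_⟩
  funext φ
  rw [pull_apply]
  refine hu.2 _ _ fun x hx => ?_
  exact RingHom.congr_fun (he (φ.comp (algebraMap F E))) ⟨x, hx⟩

theorem mem_desc (S : Submodule ℚ ((E →+* ℂ) → ℚ)) (v : (F →+* ℂ) → ℚ) :
    v ∈ desc F S ↔ pull F v ∈ S := Iff.rfl

theorem map_desc {S : Submodule ℚ ((E →+* ℂ) → ℚ)} (hS : S ≤ resSpace F) :
    (desc F S).map (pull F) = S := by
  rw [desc, Submodule.map_comap_eq]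
  exact inf_eq_right.2 fun u hu => mem_range_pull F (hS hu)

theorem finrank_desc {S : Submodule ℚ ((E →+* ℂ) → ℚ)} (hS : S ≤ resSpace F) :
    finrank ℚ (desc F S) = finrank ℚ S := by
  have h1 := (Submodule.equivMapOfInjective (pull F) (pull_inj F) (desc F S)).finrank_eq
  rw [h1, map_desc F hS]

theorem stable_desc {S : Submodule ℚ ((E →+* ℂ) → ℚ)} (hS : IsStable S) :
    IsStable (desc F S) := by
  intro σ v hv
  exact hS σ _ hv

theorem stable_map {S' : Submodule ℚ ((F →+* ℂ) → ℚ)} (hS : IsStable S') :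
    IsStable (S'.map (pull F)) := by
  rintro σ _ ⟨v, hv, rfl⟩
  exact ⟨_, hS σ v hv, rfl⟩

theorem desc_minimal {S : Submodule ℚ ((E →+* ℂ) → ℚ)} (hS : S ∈ minimalSpaces E)
    (hle : S ≤ resSpace F) : desc F S ∈ minimalSpaces F := by
  obtain ⟨h0, hst, hodd, hmin⟩ := hS
  refine ⟨?_, stable_desc F hst, ?_, ?_⟩
  · intro h
    apply h0
    rw [← map_desc F hle, h, Submodule.map_bot]
  · intro v hv ψ
    obtain ⟨φ, rfl⟩ := exists_ext F ψ
    exact hodd _ hv φ
  · intro S' hS' hle'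
    have h1 : S'.map (pull F) ≤ S := by
      rintro _ ⟨v, hv, rfl⟩
      exact hle' hv
    rcases hmin _ (stable_map F hS') h1 with h | h
    · left
      exact Submodule.map_injective_of_injective (pull_inj F) (h.trans (Submodule.map_bot _).symm)
    · right
      rw [desc, ← h, Submodule.comap_map_eq_of_injective (pull_inj F)]

/-- One inclusion for the class functions. -/
theorem killers_desc_le {S S' : Submodule ℚ ((E →+* ℂ) → ℚ)} (hS : S ∈ minimalSpaces E)
    (hle : S ≤ resSpace F) (hS' : S' ∈ minimalSpaces E)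
    (hK : killers (Gal E) (S : Set ((E →+* ℂ) → ℚ)) =
      killers (Gal E) (S' : Set ((E →+* ℂ) → ℚ))) :
    killers (Gal F) (desc F S : Set ((F →+* ℂ) → ℚ)) ≤
      killers (Gal F) (desc F S' : Set ((F →+* ℂ) → ℚ)) := by
  classical
  obtain ⟨h0, hi, ho, hmin⟩ := (minInv_iff S).2 hS
  obtain ⟨h0', hi', ho', hmin'⟩ := (minInv_iff S').2 hS'
  obtain ⟨A, hA, hAS, s₀, hs₀, hne⟩ := exists_equivariant hi h0 hi' h0' hK
  have hI : Invariant (Gal E) (S.map A) := by
    rintro γ _ ⟨t, ht, rfl⟩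
    refine ⟨fun y => t (γ • y), hi γ t ht, ?_⟩
    funext x
    rw [hA]
  have hmap : S.map A = S' := by
    have hle' : S.map A ≤ S' := by
      rintro _ ⟨t, ht, rfl⟩
      exact hAS t
    rcases hmin' _ hI hle' with h | h
    · exfalso
      apply hne
      have h1 : A s₀ ∈ S.map A := ⟨s₀, hs₀, rfl⟩
      rw [h] at h1
      exact h1
    · exact h
  have hAσ : ∀ (σ : ℂ ≃+* ℂ) (u : (E →+* ℂ) → ℚ),
      A (fun φ => u ((σ : ℂ →+* ℂ).comp φ)) = fun φ => A u ((σ : ℂ →+* ℂ).comp φ) := by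
    intro σ u
    obtain ⟨γ, hγ⟩ := exists_gal_smul E σ
    funext φ
    have h1 := hA γ u φ
    simp only [hγ] at h1
    exact h1
  choose τ hτ using gal_smul F
  intro a ha s' hs' ψ
  obtain ⟨φ, rfl⟩ := exists_ext F ψ
  have hs'S : pull F s' ∈ S.map A := by
    rw [hmap]
    exact hs'
  obtain ⟨t, ht, hts⟩ := hs'S
  obtain ⟨v, rfl⟩ := mem_range_pull F (hle ht)
  have hv : ∀ ψ : F →+* ℂ, ∑ γ : Gal F, a (ConjClasses.mk γ) * v (γ • ψ) = 0 := fun ψ =>
    ha v ht ψ
  have hw : (∑ γ : Gal F, a (ConjClasses.mk γ) •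
      (fun φ : E →+* ℂ => pull F v (((τ γ : ℂ ≃+* ℂ) : ℂ →+* ℂ).comp φ))) = 0 := by
    funext φ
    rw [Finset.sum_apply, Pi.zero_apply, ← hv (φ.comp (algebraMap F E))]
    refine Finset.sum_congr rfl fun γ _ => ?_
    rw [Pi.smul_apply, smul_eq_mul, hτ γ]
    rfl
  have hAw := congrArg A hw
  rw [map_sum, map_zero] at hAw
  have h2 := congrFun hAw φ
  rw [Finset.sum_apply, Pi.zero_apply] at h2
  rw [← h2]
  refine Finset.sum_congr rfl fun γ _ => ?_
  rw [map_smul, hAσ, Pi.smul_apply, smul_eq_mul, hts, hτ γ]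
  rfl

end

theorem desc : P_desc := by
  intro E _ _ _ F _ S hS hle
  refine ⟨desc_minimal F hS hle, map_desc F hle, finrank_desc F hle, ?_⟩
  intro S' hS' hle' hK
  exact le_antisymm (killers_desc_le F hS hle hS' hK) (killers_desc_le F hS' hle' hS hK.symm)

end Pool.Agent.Y46.KN1
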